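import Mathlib

set_option autoImplicit false

/-!
# Frankl's conjecture for 2-dense union-closed families

In a 2-dense union-closed family `F` every set containing two different members of `F` is a member.
So `F` consists of an up-set `W` and of minimal members `M` (the set `Mset`).  For a fixed
`M₁ ∈ Mset` we count, over `x ∈ M₁`, the difference between the numbers of members containing and
avoiding `x`; the main tool is that a proper non-empty up-set in an `r`-dimensional cube has at
least `r` boundary edges, applied in the intervals `[M, M ∪ M₁]`.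
-/

namespace Pool.Agent.Results.MP_5b71d7_co.TwoDense

open Finset

/-- `F` is union-closed over `[n]`: a family of non-empty sets, containing `[n]` and closed under
unions. -/
def UnionClosed {n : ℕ} (F : Finset (Finset (Fin n))) : Prop :=
  ∅ ∉ F ∧ univ ∈ F ∧ ∀ A ∈ F, ∀ B ∈ F, A ∪ B ∈ F

/-- `𝒫ₙ`, the family of all non-empty subsets of `[n]`. -/
def full (n : ℕ) : Finset (Finset (Fin n)) := univ.filter (fun A => A.Nonempty)

open Classical in
/-- The closure of `F`: all non-empty sets `A` for which `F ∪ {A}` is union-closed. -/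
noncomputable def cl {n : ℕ} (F : Finset (Finset (Fin n))) : Finset (Finset (Fin n)) :=
  univ.filter (fun A => A.Nonempty ∧ UnionClosed (insert A F))

/-- `F` is `k`-dense: `k` is the least number such that the `k`-fold closure of `F` is `𝒫ₙ`. -/
def IsDense {n : ℕ} (k : ℕ) (F : Finset (Finset (Fin n))) : Prop :=
  IsLeast {j : ℕ | (cl^[j]) F = full n} k

/-! ### The edge boundary of an up-set in an interval -/

section Cube

variable {α : Type*} [Fintype α] [DecidableEq α]

/-- the boundary edges `(B, x)` (from `B \ {x}` to `B`) in the interval `[M, N]` -/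
def E (W : Finset α → Prop) [DecidablePred W] (M N : Finset α) : Finset (Finset α × α) :=
  univ.filter (fun e => e.2 ∈ e.1 ∧ M ⊆ e.1.erase e.2 ∧ e.1 ⊆ N ∧ W e.1 ∧ ¬ W (e.1.erase e.2))

lemma mem_E {W : Finset α → Prop} [DecidablePred W] {M N : Finset α} {e : Finset α × α} :
    e ∈ E W M N ↔ e.2 ∈ e.1 ∧ M ⊆ e.1.erase e.2 ∧ e.1 ⊆ N ∧ W e.1 ∧ ¬ W (e.1.erase e.2) := by
  simp [E]

lemma card_E (W : Finset α → Prop) [DecidablePred W] (hW : ∀ A B : Finset α, A ⊆ B → W A → W B) :
    ∀ (r : ℕ) (M N : Finset α), M ⊆ N → N.card = M.card + r → ¬ W M → W N →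
      r ≤ (E W M N).card := by
  intro r
  induction r with
  | zero => intro M N _ _ _ _; exact Nat.zero_le _
  | succ r ih =>
    intro M N hMN hcard hM hN
    -- a direction `a`
    obtain ⟨a, haN, haM⟩ : ∃ a ∈ N, a ∉ M := by
      by_contra hcon
      push Not at hcon
      have := card_le_card (show N ⊆ M from hcon)
      omega
    have haN' : a ∉ N.erase a := notMem_erase a N
    have h1 : M ⊆ N.erase a := fun v hv => mem_erase.2 ⟨fun h => haM (h ▸ hv), hMN hv⟩
    have h2 : insert a M ⊆ N := insert_subset haN hMN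
    have hc1 : (N.erase a).card = M.card + r := by
      rw [card_erase_of_mem haN]; omega
    have hc2 : N.card = (insert a M).card + r := by
      rw [card_insert_of_notMem haM]; omega
    have hsub1 : E W M (N.erase a) ⊆ E W M N := by
      intro e he
      rw [mem_E] at he ⊢
      exact ⟨he.1, he.2.1, he.2.2.1.trans (erase_subset _ _), he.2.2.2⟩
    have hsub2 : E W (insert a M) N ⊆ E W M N := by
      intro e he
      rw [mem_E] at he ⊢
      exact ⟨he.1, (subset_insert _ _).trans he.2.1, he.2.2⟩
    by_cases hA : W (N.erase a)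
    · have i1 := ih M (N.erase a) h1 hc1 hM hA
      -- one more edge
      obtain ⟨e, he, hne⟩ : ∃ e ∈ E W M N, e ∉ E W M (N.erase a) := by
        by_cases hB : W (insert a M)
        · refine ⟨(insert a M, a), ?_, ?_⟩
          · rw [mem_E]
            simp only
            rw [erase_insert haM]
            exact ⟨mem_insert_self _ _, Subset.refl _, h2, hB, hM⟩
          · intro h
            rw [mem_E] at h
            exact haN' (h.2.2.1 (mem_insert_self _ _))
        · have i2 := ih (insert a M) N h2 hc2 hB hN
          have hr : 0 < r := by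
            rcases Nat.eq_zero_or_pos r with h | h
            · exfalso
              apply hB
              have : insert a M = N := eq_of_subset_of_card_le h2 (by omega)
              rw [this]
              exact hN
            · exact h
          obtain ⟨e, he⟩ := card_pos.1 (lt_of_lt_of_le hr i2)
          refine ⟨e, hsub2 he, fun h => ?_⟩
          rw [mem_E] at he h
          have : a ∈ e.1 := mem_of_mem_erase (he.2.1 (mem_insert_self _ _))
          exact haN' (h.2.2.1 this)
      have : insert e (E W M (N.erase a)) ⊆ E W M N := insert_subset he hsub1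
      have := card_le_card this
      rw [card_insert_of_notMem hne] at this
      omega
    · by_cases hB : W (insert a M)
      · -- all edges in direction `a`
        have hinj : Set.InjOn (fun y => ((insert a (insert y M) : Finset α), a))
            ((N \ M : Finset α) : Set α) := by
          intro y hy z hz hyz
          simp only [coe_sdiff, Set.mem_sdiff, mem_coe] at hy hz
          simp only [Prod.mk.injEq, and_true] at hyz
          by_contra hne
          have h3 : y ∈ insert a (insert z M) := by rw [← hyz]; simp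
          have h4 : z ∈ insert a (insert y M) := by rw [hyz]; simp
          simp only [mem_insert] at h3 h4
          rcases h3 with h3 | h3 | h3
          · rcases h4 with h4 | h4 | h4
            · exact hne (h3.trans h4.symm)
            · exact hne h4.symm
            · exact hz.2 h4
          · exact hne h3
          · exact hy.2 h3
        have himg : (N \ M).image (fun y => ((insert a (insert y M) : Finset α), a))
            ⊆ E W M N := by
          intro e he
          rw [mem_image] at he
          obtain ⟨y, hy, rfl⟩ := he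
          rw [mem_sdiff] at hy
          rw [mem_E]
          simp only
          refine ⟨mem_insert_self _ _, ?_, ?_, ?_, ?_⟩
          · intro v hv
            exact mem_erase.2 ⟨fun h => haM (h ▸ hv), mem_insert_of_mem (mem_insert_of_mem hv)⟩
          · exact insert_subset haN (insert_subset hy.1 hMN)
          · exact hW _ _ (insert_subset_insert _ (subset_insert _ _)) hB
          · intro h
            apply hA
            refine hW _ _ ?_ h
            intro v hv
            rw [mem_erase] at hv
            refine mem_erase.2 ⟨hv.1, ?_⟩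
            exact (insert_subset haN (insert_subset hy.1 hMN)) hv.2
        have := card_le_card himg
        rw [card_image_of_injOn hinj, card_sdiff_of_subset hMN] at this
        omega
      · have i2 := ih (insert a M) N h2 hc2 hB hN
        have hne : (N, a) ∉ E W (insert a M) N := by
          intro h
          rw [mem_E] at h
          have := h.2.1 (mem_insert_self a M)
          exact notMem_erase _ _ this
        have hin : (N, a) ∈ E W M N := by
          rw [mem_E]
          exact ⟨haN, h1, Subset.refl _, hN, hA⟩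
        have : insert (N, a) (E W (insert a M) N) ⊆ E W M N := insert_subset hin hsub2
        have := card_le_card this
        rw [card_insert_of_notMem hne] at this
        omega

end Cube

/-! ### The structure of 2-dense families -/

variable {n : ℕ} {F : Finset (Finset (Fin n))}

/-- if the second closure is everything, a set containing two different members is a member -/
lemma two_members (hF : UnionClosed F) (h2 : cl (cl F) = full n) {A₁ A₂ B : Finset (Fin n)}
    (hA₁ : A₁ ∈ F) (hA₂ : A₂ ∈ F) (hne : A₁ ≠ A₂) (h₁ : A₁ ⊆ B) (h₂ : A₂ ⊆ B) : B ∈ F := by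
  classical
  have hmem : ∀ A ∈ F, A ∈ cl F := by
    intro A hA
    simp only [cl, mem_filter, mem_univ, true_and]
    refine ⟨?_, ?_⟩
    · rw [nonempty_iff_ne_empty]
      rintro rfl
      exact hF.1 hA
    · rw [insert_eq_of_mem hA]
      exact hF
  -- `cl F` is an up-set
  have hup : ∀ A ∈ cl F, ∀ C, A ⊆ C → C ∈ cl F := by
    intro A hA C hAC
    by_cases hCA : C ⊆ A
    · rwa [Subset.antisymm hCA hAC]
    · have hne : (C \ A).Nonempty := sdiff_nonempty.2 hCA
      have h3 : C \ A ∈ cl (cl F) := by
        rw [h2]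
        simp only [full, mem_filter, mem_univ, true_and]
        exact hne
      have hAne : A.Nonempty := by
        simp only [cl, mem_filter, mem_univ, true_and] at hA
        exact hA.1
      rw [cl, mem_filter] at h3
      have h4 := h3.2.2.2.2 (C \ A) (mem_insert_self _ _) A (mem_insert_of_mem hA)
      rw [sdiff_union_of_subset hAC, mem_insert] at h4
      rcases h4 with h4 | h4
      · exfalso
        obtain ⟨v, hv⟩ := hAne
        have h5 : v ∈ C := hAC hv
        rw [h4, mem_sdiff] at h5
        exact h5.2 hv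
      · exact h4
  have key : ∀ A₁ ∈ F, ∀ A₂ ∈ F, ∀ B, A₁ ⊆ B → A₂ ⊆ B → ¬ A₂ ⊆ A₁ → B ∈ F := by
    intro A₁ hA₁ A₂ hA₂ B h₁ h₂ hsub
    have h3 : A₁ ∪ (B \ A₂) ∈ cl F := hup A₁ (hmem A₁ hA₁) _ subset_union_left
    rw [cl, mem_filter] at h3
    have h4 := h3.2.2.2.2 _ (mem_insert_self _ _) A₂ (mem_insert_of_mem hA₂)
    have h5 : A₁ ∪ (B \ A₂) ∪ A₂ = B := by
      ext v
      simp only [mem_union, mem_sdiff]
      constructor
      · rintro ((h | h) | h)
        · exact h₁ h
        · exact h.1
        · exact h₂ h
      · intro h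
        by_cases hv : v ∈ A₂
        · exact Or.inr hv
        · exact Or.inl (Or.inr ⟨h, hv⟩)
    rw [h5, mem_insert] at h4
    rcases h4 with h4 | h4
    · exfalso
      apply hsub
      intro v hv
      have h6 : v ∈ B := h₂ hv
      rw [h4, mem_union, mem_sdiff] at h6
      rcases h6 with h6 | h6
      · exact h6
      · exact absurd hv h6.2
    · exact h4
  by_cases hsub : A₂ ⊆ A₁
  · exact key A₂ hA₂ A₁ hA₁ B h₂ h₁ (fun h => hne (Subset.antisymm h hsub))
  · exact key A₁ hA₁ A₂ hA₂ B h₁ h₂ hsub

/-- if `F` is an up-set, its closure is everything -/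
lemma cl_eq_full_of_up (hF : UnionClosed F) (hup : ∀ A ∈ F, ∀ C, A ⊆ C → C ∈ F) :
    cl F = full n := by
  classical
  ext A
  simp only [cl, full, mem_filter, mem_univ, true_and]
  constructor
  · exact fun h => h.1
  · intro h
    refine ⟨h, ?_, mem_insert_of_mem hF.2.1, ?_⟩
    · rw [mem_insert, not_or]
      exact ⟨fun h' => h.ne_empty h'.symm, hF.1⟩
    · intro X hX Y hY
      rw [mem_insert] at hX hY ⊢
      rcases hX with rfl | hX
      · rcases hY with rfl | hY
        · left; rw [union_self]
        · right; exact hup Y hY _ subset_union_right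
      · right; exact hup X hX _ subset_union_left

/-- the difference between the numbers of members containing and avoiding `x` -/
lemma count_x (W : Finset (Fin n) → Prop) [DecidablePred W] (hWF : ∀ B, W B → B ∈ F)
    (hWup : ∀ A B : Finset (Fin n), A ⊆ B → W A → W B) (x : Fin n) :
    (F.filter (fun A => x ∈ A)).card + (F.filter (fun B => ¬ W B)).card
      = (F.filter (fun A => ¬ x ∈ A)).card
        + (univ.filter (fun B : Finset (Fin n) => x ∈ B ∧ W B ∧ ¬ W (B.erase x))).card
        + 2 * ((F.filter (fun B => ¬ W B)).filter (fun A => x ∈ A)).card := by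
  -- split by `W`
  have h1 := card_filter_add_card_filter_not (s := F.filter (fun A => x ∈ A)) (fun B => W B)
  have h2 := card_filter_add_card_filter_not (s := F.filter (fun A => ¬ x ∈ A)) (fun B => W B)
  have h3 := card_filter_add_card_filter_not (s := F.filter (fun B => ¬ W B)) (fun A => x ∈ A)
  have e1 : (F.filter (fun A => x ∈ A)).filter (fun B => ¬ W B)
      = (F.filter (fun B => ¬ W B)).filter (fun A => x ∈ A) := by
    ext B; simp only [mem_filter]; tauto
  have e2 : (F.filter (fun A => ¬ x ∈ A)).filter (fun B => ¬ W B)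
      = (F.filter (fun B => ¬ W B)).filter (fun A => ¬ x ∈ A) := by
    ext B; simp only [mem_filter]; tauto
  have e3 : (F.filter (fun A => x ∈ A)).filter (fun B => W B)
      = univ.filter (fun B : Finset (Fin n) => x ∈ B ∧ W B) := by
    ext B
    simp only [mem_filter, mem_univ, true_and]
    exact ⟨fun h => ⟨h.1.2, h.2⟩, fun h => ⟨⟨hWF B h.2, h.1⟩, h.2⟩⟩
  have e4 : (F.filter (fun A => ¬ x ∈ A)).filter (fun B => W B)
      = univ.filter (fun B : Finset (Fin n) => ¬ x ∈ B ∧ W B) := by
    ext B
    simp only [mem_filter, mem_univ, true_and]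
    exact ⟨fun h => ⟨h.1.2, h.2⟩, fun h => ⟨⟨hWF B h.2, h.1⟩, h.2⟩⟩
  have h4 := card_filter_add_card_filter_not
    (s := univ.filter (fun B : Finset (Fin n) => x ∈ B ∧ W B)) (fun B => W (B.erase x))
  have e5 : (univ.filter (fun B : Finset (Fin n) => x ∈ B ∧ W B)).filter
      (fun B => ¬ W (B.erase x))
      = univ.filter (fun B : Finset (Fin n) => x ∈ B ∧ W B ∧ ¬ W (B.erase x)) := by
    ext B; simp only [mem_filter, mem_univ, true_and]; tauto
  have e6 : ((univ.filter (fun B : Finset (Fin n) => x ∈ B ∧ W B)).filter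
      (fun B => W (B.erase x))).card
      = (univ.filter (fun B : Finset (Fin n) => ¬ x ∈ B ∧ W B)).card := by
    refine card_bij (fun B _ => B.erase x) ?_ ?_ ?_
    · intro B hB
      simp only [mem_filter, mem_univ, true_and] at hB ⊢
      exact ⟨notMem_erase _ _, hB.2⟩
    · intro B hB C hC h
      simp only [mem_filter, mem_univ, true_and] at hB hC
      rw [← insert_erase hB.1.1, h, insert_erase hC.1.1]
    · intro B hB
      simp only [mem_filter, mem_univ, true_and] at hB
      refine ⟨insert x B, ?_, erase_insert hB.1⟩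
      simp only [mem_filter, mem_univ, true_and]
      rw [erase_insert hB.1]
      exact ⟨⟨mem_insert_self _ _, hWup _ _ (subset_insert _ _) hB.2⟩, hB.2⟩
  rw [e1, e3] at h1
  rw [e2, e4] at h2
  rw [e5, e6] at h4
  omega

/-- **Main theorem for families in which a set with two different members is a member.** -/
lemma main (h0 : ∅ ∉ F)
    (h2 : ∀ A₁ ∈ F, ∀ A₂ ∈ F, ∀ B, A₁ ≠ A₂ → A₁ ⊆ B → A₂ ⊆ B → B ∈ F)
    (hnot : ∃ A ∈ F, ∃ C, A ⊆ C ∧ C ∉ F) :
    ∃ x : Fin n, (F.filter (fun A => ¬ x ∈ A)).card < (F.filter (fun A => x ∈ A)).card := by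
  classical
  set W : Finset (Fin n) → Prop := fun B => ∀ C, B ⊆ C → C ∈ F with hW
  have hWF : ∀ B, W B → B ∈ F := fun B hB => hB B (Subset.refl _)
  have hWup : ∀ A B : Finset (Fin n), A ⊆ B → W A → W B :=
    fun A B hAB hA C hC => hA C (hAB.trans hC)
  have h2W : ∀ A₁ ∈ F, ∀ A₂ ∈ F, ∀ B, A₁ ≠ A₂ → A₁ ⊆ B → A₂ ⊆ B → W B :=
    fun A₁ hA₁ A₂ hA₂ B hne h₁ h₂ C hC => h2 A₁ hA₁ A₂ hA₂ C hne (h₁.trans hC) (h₂.trans hC)
  set Ms := F.filter (fun B => ¬ W B) with hMs
  obtain ⟨M₁, hM₁F, C₁, hMC₁, hC₁⟩ := hnot
  have hM₁ : M₁ ∈ Ms := by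
    rw [hMs, mem_filter]
    exact ⟨hM₁F, fun h => hC₁ (h C₁ hMC₁)⟩
  have hM₁ne : M₁.Nonempty := by
    rw [nonempty_iff_ne_empty]
    rintro rfl
    exact h0 hM₁F
  -- the boundary edges in directions `x ∈ M₁`
  set T : Finset (Finset (Fin n) × Fin n) :=
    univ.filter (fun e => e.2 ∈ M₁ ∧ e.2 ∈ e.1 ∧ W e.1 ∧ ¬ W (e.1.erase e.2)) with hT
  have hTsum : T.card = ∑ x ∈ M₁, (univ.filter (fun B : Finset (Fin n) => x ∈ B ∧ W B ∧
      ¬ W (B.erase x))).card := by
    rw [card_eq_sum_card_fiberwise (f := fun e : Finset (Fin n) × Fin n => e.2) (t := M₁)]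
    · refine sum_congr rfl fun x hx => ?_
      refine card_bij (fun e _ => e.1) ?_ ?_ ?_
      · intro e he
        simp only [hT, mem_filter, mem_univ, true_and] at he ⊢
        obtain ⟨⟨_, h2, h3, h4⟩, rfl⟩ := he
        exact ⟨h2, h3, h4⟩
      · intro e he e' he' h
        simp only [mem_filter] at he he'
        exact Prod.ext h (he.2.trans he'.2.symm)
      · intro B hB
        simp only [mem_filter, mem_univ, true_and] at hB
        refine ⟨(B, x), ?_, rfl⟩
        simp only [hT, mem_filter, mem_univ, true_and]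
        exact ⟨⟨hx, hB⟩, trivial⟩
    · intro e he
      simp only [hT, coe_filter, mem_univ, true_and, Set.mem_ofPred_eq] at he
      exact mem_coe.2 he.1
  -- the edges in the intervals `[M, M ∪ M₁]`
  have hE : ∑ M ∈ Ms.erase M₁, (E W M (M ∪ M₁)).card ≤ T.card := by
    rw [← card_biUnion]
    · refine card_le_card ?_
      intro e he
      rw [mem_biUnion] at he
      obtain ⟨M, hM, he⟩ := he
      rw [mem_E] at he
      simp only [hT, mem_filter, mem_univ, true_and]
      refine ⟨?_, he.1, he.2.2.2⟩
      have h3 := he.2.2.1 he.1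
      rw [mem_union] at h3
      rcases h3 with h3 | h3
      · exfalso
        exact notMem_erase _ _ (he.2.1 h3)
      · exact h3
    · intro M hM M' hM' hne
      rw [Function.onFun, disjoint_left]
      intro e he he'
      rw [mem_E] at he he'
      rw [mem_coe, mem_erase, hMs, mem_filter] at hM hM'
      exact he.2.2.2.2 (h2W M hM.2.1 M' hM'.2.1 _ hne he.2.1 he'.2.1)
  have hE' : ∀ M ∈ Ms.erase M₁, M₁.card ≤ (E W M (M ∪ M₁)).card + (M ∩ M₁).card := by
    intro M hM
    rw [mem_erase, hMs, mem_filter] at hM
    have h3 := card_union_add_card_inter M M₁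
    have h4 : (M ∪ M₁).card = M.card + ((M ∪ M₁).card - M.card) := by
      have := card_le_card (subset_union_left (s₁ := M) (s₂ := M₁))
      omega
    have h5 := card_E W hWup _ M (M ∪ M₁) subset_union_left h4 hM.2.2
      (h2W M hM.2.1 M₁ hM₁F _ hM.1 subset_union_left subset_union_right)
    omega
  have hdeg : ∑ x ∈ M₁, (Ms.filter (fun A => x ∈ A)).card = ∑ M ∈ Ms, (M ∩ M₁).card := by
    have : ∀ M ∈ Ms, (M ∩ M₁).card = (M₁.filter (fun x => x ∈ M)).card := by
      intro M _
      congr 1
      ext v
      simp only [mem_inter, mem_filter]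
      tauto
    rw [sum_congr rfl this]
    exact sum_card_bipartiteAbove_eq_sum_card_bipartiteBelow (fun x A => x ∈ A)
  have hcount : ∀ x ∈ M₁, (F.filter (fun A => x ∈ A)).card + Ms.card
      = (F.filter (fun A => ¬ x ∈ A)).card
        + (univ.filter (fun B : Finset (Fin n) => x ∈ B ∧ W B ∧ ¬ W (B.erase x))).card
        + 2 * (Ms.filter (fun A => x ∈ A)).card := fun x _ => count_x W hWF hWup x
  have hsum := sum_congr rfl hcount
  rw [sum_add_distrib, sum_add_distrib, sum_add_distrib, ← mul_sum, ← hTsum, hdeg, sum_const,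
    smul_eq_mul] at hsum
  have h5 := add_sum_erase Ms (fun M => (M ∩ M₁).card) hM₁
  simp only [inter_self] at h5
  have h6 : (Ms.card - 1) * M₁.card ≤ ∑ M ∈ Ms.erase M₁, (E W M (M ∪ M₁)).card
      + ∑ M ∈ Ms.erase M₁, (M ∩ M₁).card := by
    rw [← sum_add_distrib, ← card_erase_of_mem hM₁, ← smul_eq_mul, ← sum_const]
    exact sum_le_sum hE'
  have h7 : (Ms.card - 1) * M₁.card + M₁.card = M₁.card * Ms.card := by
    have : 0 < Ms.card := card_pos.2 ⟨_, hM₁⟩
    obtain ⟨k, hk⟩ : ∃ k, Ms.card = k + 1 := ⟨Ms.card - 1, by omega⟩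
    rw [hk]
    simp only [Nat.add_sub_cancel]
    ring
  have h8 : 0 < M₁.card := card_pos.2 hM₁ne
  have h9 : ∑ x ∈ M₁, (F.filter (fun A => ¬ x ∈ A)).card
      < ∑ x ∈ M₁, (F.filter (fun A => x ∈ A)).card := by
    omega
  obtain ⟨x, _, hx⟩ := exists_lt_of_sum_lt h9
  exact ⟨x, hx⟩

/-- **Theorem (Frankl's conjecture for 2-dense families, in a strict form).** In every 2-dense
union-closed family `F` over `[n]` some element lies in more than half of the members; in
particular it lies in at least `⌊|F| / 2⌋` members. -/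
theorem result (n : ℕ) (F : Finset (Finset (Fin n))) (hF : UnionClosed F) (h2 : IsDense 2 F) :
    ∃ i : Fin n, F.card < 2 * (F.filter (fun A => i ∈ A)).card ∧
      F.card / 2 ≤ (F.filter (fun A => i ∈ A)).card := by
  classical
  have hcl : cl (cl F) = full n := h2.1
  have hnot1 : cl F ≠ full n := by
    intro h
    have : (2 : ℕ) ≤ 1 := h2.2 (show (1 : ℕ) ∈ {j : ℕ | (cl^[j]) F = full n} from h)
    omega
  have htwo : ∀ A₁ ∈ F, ∀ A₂ ∈ F, ∀ B, A₁ ≠ A₂ → A₁ ⊆ B → A₂ ⊆ B → B ∈ F :=
    fun A₁ hA₁ A₂ hA₂ B hne h₁ h₂ => two_members hF hcl hA₁ hA₂ hne h₁ h₂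
  have hnot : ∃ A ∈ F, ∃ C, A ⊆ C ∧ C ∉ F := by
    by_contra hcon
    push Not at hcon
    exact hnot1 (cl_eq_full_of_up hF hcon)
  obtain ⟨x, hx⟩ := main hF.1 htwo hnot
  have h3 := card_filter_add_card_filter_not (s := F) (fun A => x ∈ A)
  exact ⟨x, by omega, by omega⟩

end Pool.Agent.Results.MP_5b71d7_co.TwoDense
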